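import Pool.Agent.W890.SF.Stm

/-!
# Project SAM: the two-point bound with remainder
-/

set_option autoImplicit false

namespace Pool.Agent.W880.SAM

open Pool.Agent.W890.SF

/-- second order Bernoulli inequality -/
lemma bern2 (y : ℝ) (hy : 0 ≤ y) (n : ℕ) :
    1 + n * y + n * (n - 1) / 2 * y ^ 2 ≤ (1 + y) ^ n := by
  induction n with
  | zero => simp
  | succ n ih =>
    have h1 : (1 + y) * (1 + n * y + n * (n - 1) / 2 * y ^ 2) ≤ (1 + y) ^ (n + 1) := by
      rw [pow_succ, mul_comm]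
      exact mul_le_mul_of_nonneg_right ih (by linarith)
    refine le_trans ?_ h1
    have h2 : (0 : ℝ) ≤ n * (n - 1) := by
      rcases Nat.eq_zero_or_pos n with h | h
      · subst h; simp
      · have : (1 : ℝ) ≤ n := by exact_mod_cast h
        exact mul_nonneg (by linarith) (by linarith)
    have h3 : 0 ≤ y ^ 3 * (n * (n - 1)) := mul_nonneg (pow_nonneg hy 3) h2
    push_cast
    nlinarith

/-- `(1 - x) ^ r ≤ 4 / 9` if `(r + 1) x ≥ 1` -/
lemma pow_le (r : ℕ) (hr : 2 ≤ r) (x : ℝ) (hx1 : x ≤ 1) (h : 1 ≤ ((r : ℝ) + 1) * x) :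
    (1 - x) ^ r ≤ 4 / 9 := by
  have hr' : (2 : ℝ) ≤ r := by exact_mod_cast hr
  have hr0 : (0 : ℝ) < r := by linarith
  have h1 : (1 - x) * (1 + 1 / (r : ℝ)) ≤ 1 := by
    have e : (1 - x) * (1 + 1 / (r : ℝ)) = (1 - x) * ((r : ℝ) + 1) / r := by
      field_simp
    rw [e, div_le_one hr0]
    nlinarith
  have h2 : (1 - x) ^ r * (1 + 1 / (r : ℝ)) ^ r ≤ 1 := by
    rw [← mul_pow]
    exact pow_le_one₀ (mul_nonneg (by linarith) (by positivity)) h1
  have h3 := bern2 (1 / (r : ℝ)) (by positivity) r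
  have h4 : (9 : ℝ) / 4 ≤ (1 + 1 / (r : ℝ)) ^ r := by
    refine le_trans ?_ h3
    have e : (1 : ℝ) + r * (1 / (r : ℝ)) + r * (r - 1) / 2 * (1 / (r : ℝ)) ^ 2 =
        2 + (r - 1) / (2 * r) := by
      field_simp
      ring
    rw [e]
    have : (1 : ℝ) / 4 ≤ (r - 1) / (2 * r) := by
      rw [le_div_iff₀ (by linarith)]
      linarith
    linarith
  have h5 : (1 - x) ^ r * (9 / 4) ≤ 1 :=
    le_trans (mul_le_mul_of_nonneg_left h4 (pow_nonneg (by linarith) r)) h2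
  linarith

theorem tw (h1 : S_BAS) (h2 : S_IND) (h3 : S_MONO) : S_TW := by
  intro r hr x hx hrx a b q hT
  obtain ⟨a0, b0, q0, q1, mean⟩ := hT
  have hr' : (2 : ℝ) ≤ r := by exact_mod_cast hr
  have hsum : ∑ i, b i * q i = r * x - ∑ i, a i := by
    have : ∀ i, b i * q i = x - a i := fun i => by linarith [mean i]
    rw [Finset.sum_congr rfl fun i _ => this i, Finset.sum_sub_distrib]
    simp
  have ha : 0 ≤ ∑ i, a i := Finset.sum_nonneg fun i _ => a0 i
  have hbq : 0 ≤ ∑ i, b i * q i := Finset.sum_nonneg fun i _ => mul_nonneg (b0 i).le (q0 i)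
  obtain ⟨c, hc⟩ : ∃ c : ℝ, c = 1 - ∑ i, a i := ⟨_, rfl⟩
  have hρ : c - ∑ i, b i * q i = 1 - r * x := by rw [hsum, hc]; ring
  have hρ1 : 19 / 20 * x ≤ 1 - r * x := by linarith
  have hρ0 : 0 < 1 - r * x := by
    have : 0 < 19 / 20 * x := by positivity
    linarith
  have hc0 : 0 < c := by linarith
  have hc1 : c ≤ 1 := by linarith
  have hx1 : x < 1 := by nlinarith
  have hb : ∀ i ∈ (Finset.univ : Finset (Fin r)), 0 < b i ∧ 0 ≤ q i ∧ q i < 1 :=
    fun i _ => ⟨b0 i, q0 i, q1 i⟩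
  obtain ⟨u1, u2, u3, u4, u5⟩ := h1 (Fin r) b q c Finset.univ hc0 hb
  have hPP : PP a b q = PU b q c Finset.univ := by
    unfold PP
    rw [hc]
  rw [hρ] at u4
  rw [hPP, ← hc]
  have hI := fun w => h2 (Fin r) b q c x w Finset.univ hc0 hb
    (fun i _ => by linarith [mean i, a0 i]) hx
  rw [hρ] at hI
  generalize PU b q c Finset.univ = U at u1 u2 u3 u4 hI ⊢
  generalize PG b q c Finset.univ = G at u3 u4 u5 hI ⊢
  obtain ⟨w, hw⟩ : ∃ w : ℝ, w = G / U := ⟨_, rfl⟩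
  have hwU : G = w * U := by
    rw [hw]
    field_simp
  have hw0 : 0 < w := by rw [hw]; exact div_pos u5 u1
  have hwc : w ≤ c := by
    rw [hw, div_le_iff₀ u1]
    exact u3
  have hwρ : 1 - r * x ≤ w := by
    rw [hw, le_div_iff₀ u1]
    nlinarith
  refine ⟨w, hw0, hwc, hwU, ?_⟩
  have hmain : x ≤ w → (x ≤ 1 - r * x ∨ (8 * (x - (1 - r * x)) ≤ x ∧ 2 * x ≤ w)) →
      (1 - x) ^ r * (1 + x / 4 * (1 - w)) ≤ U := by
    intro hxw hor
    have k1 := hI w hxw (by rw [hwU]) hwρ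
    have k2 := h3 x (1 - r * x) w hx hx1 hρ0 hwρ (by linarith) hor
    have e : (1 - (1 - r * x)) / x = (r : ℝ) := by
      field_simp
      ring
    rw [e, Real.rpow_natCast] at k2
    have k3 := mul_le_mul_of_nonneg_left k2 hw0.le
    have k4 := k3.trans k1
    rw [hwU] at k4
    exact le_of_mul_le_mul_left k4 hw0
  by_cases hxρ : x ≤ 1 - r * x
  · exact Or.inl (hmain (hxρ.trans hwρ) (Or.inl hxρ))
  · push Not at hxρ
    by_cases h2x : 2 * x ≤ w
    · refine Or.inl (hmain (by linarith) (Or.inr ⟨?_, h2x⟩))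
      nlinarith
    · push Not at h2x
      refine Or.inr ⟨pow_le r hr x hx1.le (by linarith), ?_⟩
      have k1 : 19 / 20 * x ≤ U * (2 * x) := by
        calc 19 / 20 * x ≤ G := hρ1.trans u4
          _ = U * w := by rw [hwU, mul_comm]
          _ ≤ U * (2 * x) := mul_le_mul_of_nonneg_left h2x.le u1.le
      have k2 : 19 / 40 * (2 * x) ≤ U * (2 * x) := by linarith
      exact le_of_mul_le_mul_right k2 (by linarith)

end Pool.Agent.W880.SAM
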